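import Pool.Agent.H17.UN.Tow

/-!
# MP_8b378c_ag: row EXS, adding a section to the system of semi-invariant functions
-/

set_option autoImplicit false

open Polynomial
open Pool.Agent.H17.UN

namespace Pool.Agent.H52.UN

section

variable {K L : Type} [Field K] [Field L] [Algebra K L] {F Kb Ω : IntermediateField K L} {m : ℕ}

theorem mon_snoc {r : ℕ} (t : Fin r → Lˣ) (w : Lˣ) (f : (Fb F Kb)ˣ) (n : Fin (r + 1) → ℤ) :
    mon (Fin.snoc t w : Fin (r + 1) → Lˣ) f n =
      mon t f (fun j => n j.castSucc) * w ^ n (Fin.last r) := by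
  have h1 : ∏ j, (Fin.snoc t w : Fin (r + 1) → Lˣ) j ^ n j =
      (∏ j : Fin r, t j ^ n j.castSucc) * w ^ n (Fin.last r) := by
    rw [Fin.prod_univ_castSucc, Fin.snoc_last]
    simp only [Fin.snoc_castSucc]
  unfold mon
  rw [h1, mul_assoc]

theorem dn_snoc {A : Fin m → Subalgebra Kb (Fb F Kb)} {r : ℕ} (D : Fin r → PrimeDivisor A)
    (D1 : PrimeDivisor A) (f : (Fb F Kb)ˣ) (n : Fin (r + 1) → ℤ) (v : PrimeDivisor A) :
    dn (Fin.snoc D D1 : Fin (r + 1) → PrimeDivisor A) f n v =
      dn D f (fun j => n j.castSucc) v + n (Fin.last r) * dl D1 v := by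
  classical
  have h1 : (∑ j, if v = (Fin.snoc D D1 : Fin (r + 1) → PrimeDivisor A) j then n j else 0) =
      (∑ j : Fin r, if v = D j then n j.castSucc else 0) +
        (if v = D1 then n (Fin.last r) else 0) := by
    rw [Fin.sum_univ_castSucc, Fin.snoc_last]
    simp only [Fin.snoc_castSucc]
  have h2 : (if v = D1 then n (Fin.last r) else 0) = n (Fin.last r) * dl D1 v := by
    unfold dl
    by_cases h : v = D1
    · rw [if_pos h, if_pos h, mul_one]
    · rw [if_neg h, if_neg h, mul_zero]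
  unfold dn
  rw [← h2, add_assoc, ← h1]

theorem dl_img {A : Fin m → Subalgebra Kb (Fb F Kb)} (σ : L ≃ₐ[Ω] L) (D v v' v1 : PrimeDivisor A)
    (h1 : Img σ D v1) (hv : Img σ v v')
    (hu : ∀ a b c : PrimeDivisor A, Img σ a b → Img σ a c → b = c)
    (hi : ∀ a b c : PrimeDivisor A, Img σ b a → Img σ c a → b = c) : dl D v = dl v1 v' := by
  unfold dl
  by_cases h : v = D
  · have h2 : v' = v1 := by
      subst h
      exact hu _ _ _ hv h1
    rw [if_pos h, if_pos h2]
  · have h2 : v' ≠ v1 := by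
      intro h3
      subst h3
      exact h (hi _ _ _ hv h1)
    rw [if_neg h, if_neg h2]

end

theorem pf_EXS (hIMG : T_IMG) : T_EXS := by
  intro K L _ _ _ F Kb Ω m A i₀ φ r t D D1 w c hB hS hoff hk halg hw hc
  refine ⟨halg, ?_, ?_, ?_⟩
  · intro f n hn
    have h1 : ∀ v, dn D f (fun j => n j.castSucc) v + n (Fin.last r) * dl D1 v = 0 := by
      intro v
      rw [← dn_snoc]
      exact hn v
    have h2 : n (Fin.last r) = 0 := hk f _ _ h1
    have h3 : ∀ v, dn D f (fun j => n j.castSucc) v = 0 := by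
      intro v
      have := h1 v
      rw [h2, zero_mul, add_zero] at this
      exact this
    obtain ⟨h4, h5⟩ := hS.ker f _ h3
    refine ⟨?_, h5⟩
    funext j
    refine Fin.lastCases ?_ ?_ j
    · exact h2
    · intro i
      exact congrFun h4 i
  · intro j
    refine Fin.lastCases ?_ ?_ j
    · rw [Fin.snoc_last]
      exact hoff
    · intro i
      rw [Fin.snoc_castSucc]
      exact hS.off i
  · intro σ j
    refine Fin.lastCases ?_ ?_ j
    · obtain ⟨f, n, h1, h2, h3⟩ := hc σ
      refine ⟨f, Fin.snoc n 1, ?_, h2, ?_⟩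
      · rw [Fin.snoc_last, mon_snoc, hw, h1]
        simp only [Fin.snoc_castSucc, Fin.snoc_last, zpow_one]
      · intro v v' hv
        rw [Fin.snoc_last, dn_snoc]
        simp only [Fin.snoc_castSucc, Fin.snoc_last, one_mul]
        obtain ⟨v1, hv1⟩ := (hIMG K L F Kb Ω m A i₀ φ hB σ D1).1
        have h4 := h3 v' v1 hv1
        have h5 := dl_img σ D1 v v' v1 hv1 hv
          (fun a b c => (hIMG K L F Kb Ω m A i₀ φ hB σ a).2.2.1 b c)
          (fun a b c => (hIMG K L F Kb Ω m A i₀ φ hB σ a).2.2.2.1 b c)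
        rw [h5]
        change dl v1 v' = dn D f n v' + dl D1 v'
        rw [← h4]
        ring
    · intro i
      obtain ⟨f, n, h1, h2, h3⟩ := hS.gal σ i
      refine ⟨f, Fin.snoc n 0, ?_, h2, ?_⟩
      · rw [Fin.snoc_castSucc, mon_snoc, h1]
        simp only [Fin.snoc_castSucc, Fin.snoc_last, zpow_zero, mul_one]
      · intro v v' hv
        rw [Fin.snoc_castSucc, dn_snoc]
        simp only [Fin.snoc_castSucc, Fin.snoc_last, zero_mul, add_zero]
        exact h3 v v' hv

end Pool.Agent.H52.UN
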