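import Pool.Agent.H17.UN.Tow

/-!
# MP_8b378c_ag: row MLI, semi-invariant functions of different weights are linearly independent
-/

set_option autoImplicit false

open Polynomial
open Pool.Agent.H17.UN

namespace Pool.Agent.H52.UN

theorem pf_MLI : T_MLI := by
  intro K L _ _ _ F Kb r t ht s hs hd
  classical
  have h1 : ∀ e : s, ∃ (f : (Fb F Kb)ˣ) (n : Fin r → ℤ), (e : Lˣ) = mon t f n :=
    fun e => hs e e.2
  choose f n hfn using h1
  have hninj : Function.Injective n := by
    intro e e' h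
    by_contra hne
    have h2 : (e : Lˣ) ≠ e' := fun h => hne (Subtype.ext h)
    apply hd e e.2 e' e'.2 h2
    have h3 : (e : Lˣ) / (e' : Lˣ) =
        Units.map (algebraMap (Fb F Kb) L : Fb F Kb →* L) (f e / f e') := by
      rw [hfn e, hfn e', h]
      unfold mon
      rw [mul_div_mul_right_eq_div, _root_.map_div]
    rw [h3, Units.coe_map]
    exact SetLike.coe_mem (((f e / f e' : (Fb F Kb)ˣ) : Fb F Kb))
  have hNex : ∃ N : ℕ, ∀ (e : s) (j : Fin r), 0 ≤ n e j + (N : ℤ) := by
    refine ⟨∑ e : s, ∑ j, (n e j).natAbs, ?_⟩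
    intro e j
    have h2 : (n e j).natAbs ≤ ∑ j, (n e j).natAbs :=
      Finset.single_le_sum (f := fun j => (n e j).natAbs) (fun _ _ => Nat.zero_le _)
        (Finset.mem_univ j)
    have h3 : (∑ j, (n e j).natAbs) ≤ ∑ e : s, ∑ j, (n e j).natAbs :=
      Finset.single_le_sum (f := fun e : s => ∑ j, (n e j).natAbs) (fun _ _ => Nat.zero_le _)
        (Finset.mem_univ e)
    have h4 : (n e j).natAbs ≤ ∑ e : s, ∑ j, (n e j).natAbs := le_trans h2 h3
    generalize (∑ e : s, ∑ j, (n e j).natAbs) = N at h4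
    omega
  obtain ⟨N, hN⟩ := hNex
  let a : s → (Fin r →₀ ℕ) :=
    fun e => Finsupp.equivFunOnFinite.symm (fun j => (n e j + (N : ℤ)).toNat)
  have haj : ∀ (e : s) (j : Fin r), a e j = (n e j + (N : ℤ)).toNat := fun e j => rfl
  have hainj : Function.Injective a := by
    intro e e' h
    apply hninj
    funext j
    have h2 : a e j = a e' j := by rw [h]
    rw [haj, haj] at h2
    have h3 := hN e j
    have h4 := hN e' j
    omega
  rw [Fintype.linearIndependent_iff]
  intro g hg i
  let p : MvPolynomial (Fin r) (Fb F Kb) :=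
    ∑ e : s, MvPolynomial.monomial (a e) (g e * ((f e : (Fb F Kb)ˣ) : Fb F Kb))
  have hterm : ∀ e : s, MvPolynomial.aeval (fun j => (t j : L))
      (MvPolynomial.monomial (a e) (g e * ((f e : (Fb F Kb)ˣ) : Fb F Kb))) =
      (g e • ((e : Lˣ) : L)) * ∏ j, (t j : L) ^ N := by
    intro e
    rw [MvPolynomial.aeval_monomial, Finsupp.prod_fintype _ _ (fun j => pow_zero _)]
    have h2 : ∀ j, (t j : L) ^ (a e j) = ((t j ^ n e j : Lˣ) : L) * (t j : L) ^ N := by
      intro j
      have h3 : (t j) ^ (a e j) = t j ^ n e j * t j ^ N := by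
        rw [← zpow_natCast (t j) (a e j), haj, Int.toNat_of_nonneg (hN e j), zpow_add,
          zpow_natCast]
      rw [← Units.val_pow_eq_pow_val, h3, Units.val_mul, Units.val_pow_eq_pow_val]
    rw [Finset.prod_congr rfl (fun j _ => h2 j), Finset.prod_mul_distrib, map_mul]
    have h4 : ((e : Lˣ) : L) = algebraMap (Fb F Kb) L ((f e : (Fb F Kb)ˣ) : Fb F Kb) *
        ∏ j, ((t j ^ n e j : Lˣ) : L) := by
      rw [hfn e]
      unfold mon
      rw [Units.val_mul, Units.coe_prod]
      rfl
    rw [h4, Algebra.smul_def]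
    ring
  have hp : MvPolynomial.aeval (fun j => (t j : L)) p = 0 := by
    change MvPolynomial.aeval (fun j => (t j : L)) (∑ e : s, MvPolynomial.monomial (a e)
      (g e * ((f e : (Fb F Kb)ˣ) : Fb F Kb))) = 0
    rw [map_sum, Finset.sum_congr rfl (fun e _ => hterm e), ← Finset.sum_mul, hg, zero_mul]
  have hp0 : p = 0 := (algebraicIndependent_iff.1 ht) p hp
  have hc : MvPolynomial.coeff (a i) p = g i * ((f i : (Fb F Kb)ˣ) : Fb F Kb) := by
    change MvPolynomial.coeff (a i) (∑ e : s, MvPolynomial.monomial (a e)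
      (g e * ((f e : (Fb F Kb)ˣ) : Fb F Kb))) = _
    rw [MvPolynomial.coeff_sum, Finset.sum_eq_single i]
    · rw [MvPolynomial.coeff_monomial, if_pos rfl]
    · intro e _ he
      rw [MvPolynomial.coeff_monomial, if_neg (fun h => he (hainj h))]
    · intro h
      exact absurd (Finset.mem_univ i) h
  rw [hp0, MvPolynomial.coeff_zero] at hc
  rcases mul_eq_zero.1 hc.symm with h | h
  · exact h
  · exact absurd h (f i).ne_zero

end Pool.Agent.H52.UN
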