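import Pool.Agent.H17.UN.Tow

/-!
# MP_8b378c_ag: row H90, Hilbert 90 by a finite sum
-/

set_option autoImplicit false

open Polynomial
open Pool.Agent.H17.UN

namespace Pool.Agent.H52.UN

section

variable {K L : Type} [Field K] [Field L] [Algebra K L] {Ω : IntermediateField K L}

/-- The restriction of an automorphism to the field `K1`. -/
noncomputable def res (K1 : IntermediateField K L) (σ : L ≃ₐ[Ω] L) : K1 →ₐ[K] L :=
  (AlgHom.restrictScalars K (σ : L →ₐ[Ω] L)).comp K1.val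

theorem res_apply (K1 : IntermediateField K L) (σ : L ≃ₐ[Ω] L) (a : K1) :
    res K1 σ a = σ (a : L) := rfl

theorem res_eq_iff (K1 : IntermediateField K L) (σ τ : L ≃ₐ[Ω] L) :
    res K1 σ = res K1 τ ↔ ∀ a ∈ K1, σ a = τ a := by
  constructor
  · intro h a ha
    have := DFunLike.congr_fun h (⟨a, ha⟩ : K1)
    exact this
  · intro h
    apply AlgHom.ext
    intro a
    exact h a a.2

theorem dedekind (K1 : IntermediateField K L) (I : Set (K1 →ₐ[K] L)) [Fintype I] (hI : I.Nonempty)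
    (c : I → Lˣ) : ∃ θ : K1, ∑ i : I, (c i : L) * (i : K1 →ₐ[K] L) θ ≠ 0 := by
  by_contra hcon
  push Not at hcon
  have hli := linearIndependent_monoidHom K1 L
  have hinj : Function.Injective (fun i : I => (((i : K1 →ₐ[K] L) : K1 →+* L) : K1 →* L)) := by
    intro i j h
    apply Subtype.ext
    apply AlgHom.ext
    intro a
    exact DFunLike.congr_fun h a
  have h2 := hli.comp _ hinj
  rw [Fintype.linearIndependent_iff] at h2
  obtain ⟨i0, hi0⟩ := hI
  have h3 := h2 (fun i => (c i : L)) (by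
    funext θ
    rw [Finset.sum_apply]
    exact hcon θ) ⟨i0, hi0⟩
  exact (c ⟨i0, hi0⟩).ne_zero h3

end

theorem pf_H90 : T_H90 := by
  intro K L _ _ _ Ω K1 M c hfd hst hco hres hKM hcM
  classical
  haveI : FiniteDimensional K K1 := hfd
  let ρ : (L ≃ₐ[Ω] L) → (K1 →ₐ[K] L) := res K1
  haveI : Finite (K1 →ₐ[K] L) := inferInstance
  let I : Set (K1 →ₐ[K] L) := Set.range ρ
  haveI : Fintype I := Fintype.ofFinite I
  have hsec : ∀ i : I, ∃ σ : L ≃ₐ[Ω] L, ρ σ = i := fun i => i.2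
  choose s hs using hsec
  have hρ : ∀ σ : L ≃ₐ[Ω] L, c (s ⟨ρ σ, σ, rfl⟩) = c σ := by
    intro σ
    apply hres
    exact (res_eq_iff K1 _ _).1 (hs ⟨ρ σ, σ, rfl⟩)
  obtain ⟨θ, hθ⟩ := dedekind K1 I ⟨ρ 1, 1, rfl⟩ (fun i => c (s i))
  let g0 : L := ∑ i : I, (c (s i) : L) * (i : K1 →ₐ[K] L) θ
  have hg0 : g0 ≠ 0 := hθ
  have hgal : ∀ σ : L ≃ₐ[Ω] L, σ g0 * (c σ : L) = g0 := by
    intro σ
    let e : I → I := fun i => ⟨ρ (σ * s i), σ * s i, rfl⟩
    have heinj : Function.Injective e := by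
      intro i j h
      have h1 : ρ (σ * s i) = ρ (σ * s j) := congrArg Subtype.val h
      have h2 := (res_eq_iff K1 _ _).1 h1
      have h3 : ρ (s i) = ρ (s j) := by
        apply (res_eq_iff K1 _ _).2
        intro a ha
        exact σ.injective (h2 a ha)
      apply Subtype.ext
      rw [← hs i, ← hs j]
      exact h3
    have hebij : Function.Bijective e := Finite.injective_iff_bijective.1 heinj
    have h4 : ∀ i : I, σ ((c (s i) : L) * (i : K1 →ₐ[K] L) θ) * (c σ : L) =
        (c (s (e i)) : L) * ((e i : I) : K1 →ₐ[K] L) θ := by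
      intro i
      have h5 : c (s (e i)) = c (σ * s i) := hρ (σ * s i)
      have h6 : ((e i : I) : K1 →ₐ[K] L) θ = σ ((i : K1 →ₐ[K] L) θ) := by
        have h7 : (i : K1 →ₐ[K] L) θ = (s i) (θ : L) := by
          rw [← hs i]
          exact res_apply K1 (s i) θ
        rw [h7]
        exact res_apply K1 (σ * s i) θ
      rw [h5, h6, hco σ (s i), map_mul]
      rw [Units.val_mul, Units.coe_map]
      change σ (c (s i) : L) * σ ((i : K1 →ₐ[K] L) θ) * (c σ : L) =
        (c σ : L) * σ (c (s i) : L) * σ ((i : K1 →ₐ[K] L) θ)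
      ring
    change σ (∑ i : I, (c (s i) : L) * (i : K1 →ₐ[K] L) θ) * (c σ : L) =
      ∑ i : I, (c (s i) : L) * (i : K1 →ₐ[K] L) θ
    rw [map_sum, Finset.sum_mul, Finset.sum_congr rfl (fun i _ => h4 i)]
    exact hebij.sum_comp (fun i : I => (c (s i) : L) * (i : K1 →ₐ[K] L) θ)
  refine ⟨Units.mk0 g0 hg0, ?_, ?_⟩
  · rw [Units.val_mk0]
    apply sum_mem
    intro i _
    apply mul_mem (hcM _)
    apply hKM
    rw [← hs i]
    exact hst (s i) θ θ.2
  · intro σ
    apply Units.ext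
    rw [Units.val_mul, Units.coe_map, Units.val_mk0]
    exact hgal σ

end Pool.Agent.H52.UN
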